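import Pool.Agent.H91.Delta

set_option autoImplicit false

open Pool.Agent.H91.Delta in
theorem Pool.Agent.Results.MP_48b6db_an.Ray.result
    (𝕜 : Type) [RCLike 𝕜] (X : Type) [NormedAddCommGroup X] [NormedSpace 𝕜 X] [CompleteSpace X]
    (x : X) (hx : ‖x‖ = 1) (h : SuperDelta 𝕜 x) (r : ℝ) (h0 : 0 < r) (h1 : r < 1) :
    SuperDelta 𝕜 ((r : 𝕜) • x) :=
  ray x hx h r h0 h1
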